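import Pool.Agent.R21.PE.Hil

/-!
# Inequalities of the classes
-/

set_option autoImplicit false

open Submodule Set Module

namespace Pool.Agent.R21.PE

lemma quad_lim (α β γ : ℝ) (t₀ : ℕ) (h : ∀ t : ℕ, t₀ ≤ t → α * (t : ℝ) ^ 2 ≤ β * t + γ) :
    α ≤ 0 := by
  by_contra hα
  push Not at hα
  obtain ⟨t, ht⟩ := exists_nat_gt ((|β| + |γ|) / α)
  have ht1 : (|β| + |γ|) / α < ((max (max t t₀) 1 : ℕ) : ℝ) :=
    lt_of_lt_of_le ht (by exact_mod_cast (le_max_left t t₀).trans (le_max_left _ 1))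
  set s := max (max t t₀) 1 with hs
  have h1 : (1 : ℝ) ≤ s := by exact_mod_cast le_max_right (max t t₀) 1
  have h2 := h s ((le_max_right t t₀).trans (le_max_left _ 1))
  rw [div_lt_iff₀ hα] at ht1
  have h3 : β * s ≤ |β| * s := mul_le_mul_of_nonneg_right (le_abs_self β) (by linarith)
  have h4 : γ ≤ |γ| * s := (le_abs_self γ).trans (le_mul_of_one_le_right (abs_nonneg γ) h1)
  nlinarith

variable {K : Type} [Field K] [Algebra ℂ K]

/-- the quadratic form of a class -/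
noncomputable def Q (v : ℝ × ℝ × ℝ) (m n : ℝ) : ℝ := v.1 * m ^ 2 + 2 * v.2.1 * m * n + v.2.2 * n ^ 2

lemma r_nonneg (P : Pt K) (v : ℝ × ℝ × ℝ) (hv : P.IsClass v) : 0 ≤ v.1 := by
  obtain ⟨C, hC⟩ := hv
  have : -v.1 ≤ 0 := by
    apply quad_lim _ (C + 2 * v.2.1 * C) (C * (C + 1) + v.2.2 * C ^ 2) C
    intro t ht
    have h1 := (abs_le.mp (hC t C ht le_rfl)).2
    have h2 : (0 : ℝ) ≤ P.H t C := Nat.cast_nonneg _
    nlinarith
  linarith

lemma q_nonneg (P : Pt K) (v : ℝ × ℝ × ℝ) (hv : P.IsClass v) : 0 ≤ v.2.2 := by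
  obtain ⟨C, hC⟩ := hv
  have : -v.2.2 ≤ 0 := by
    apply quad_lim _ (C + 2 * v.2.1 * C) (C * (C + 1) + v.1 * C ^ 2) C
    intro t ht
    have h1 := (abs_le.mp (hC C t le_rfl ht)).2
    have h2 : (0 : ℝ) ≤ P.H C t := Nat.cast_nonneg _
    nlinarith
  linarith

/-- case 1 -/
lemma case_one (P : Pt K) (v : ℝ × ℝ × ℝ) (hv : P.IsClass v) (hw : P.w ≠ 0) :
    v.1 ≤ v.2.1 ∧ v.1 ≤ v.2.2 := by
  obtain ⟨C, hC⟩ := hv
  have key : ∀ m n k : ℕ, C ≤ m → C ≤ n →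
      Q v (m + k) n - Q v m (n + k) ≤ 2 * C * ((m : ℝ) + n + k + 1) := by
    intro m n k hm hn
    have h1 := (abs_le.mp (hC (m + k) n (by omega) hn)).1
    have h2 := (abs_le.mp (hC m (n + k) hm (by omega))).2
    have h3 : (P.H (m + k) n : ℝ) ≤ P.H m (n + k) := by exact_mod_cast H_le_of_w P hw m n k
    push_cast at h1 h2
    unfold Q
    linarith
  constructor
  · by_contra hlt
    push Not at hlt
    obtain ⟨N, hN⟩ := exists_nat_gt ((v.2.2 - v.1) / (2 * (v.1 - v.2.1)))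
    rw [div_lt_iff₀ (by linarith)] at hN
    have h1 : v.1 * (2 * N + 1) - 2 * v.2.1 * N - v.2.2 ≤ 0 := by
      apply quad_lim _ (2 * C * (N + 1) - 2 * C * (v.1 - v.2.2)) (2 * C * (2 * C + 1)) 0
      intro t _
      have h2 := key (N * t + C) C t (by omega) le_rfl
      push_cast at h2
      unfold Q at h2
      linarith
    linarith
  · have h1 : v.1 - v.2.2 ≤ 0 := by
      apply quad_lim _ (2 * C - 2 * C * (v.1 - v.2.2)) (2 * C * (2 * C + 1)) 0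
      intro t _
      have h2 := key C C t le_rfl le_rfl
      unfold Q at h2
      linarith
    linarith

/-- case 2, with the maximum principle for a random walk without drift -/
lemma case_two (P : Pt K) (v : ℝ × ℝ × ℝ) (hv : P.IsClass v) (hw : P.w = 0) :
    4 * v.1 + v.2.2 ≤ 2 * v.2.1 := by
  obtain ⟨C, hC⟩ := hv
  by_contra hlt
  push Not at hlt
  set δ : ℝ := 2 * (4 * v.1 + v.2.2 - 2 * v.2.1) with hδ
  have hδ0 : 0 < δ := by rw [hδ]; linarith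
  set F : ℕ → ℕ → ℝ := fun m n => 2 * (P.H m n : ℝ) - Q v m n with hF
  have hFb : ∀ m n, C ≤ m → C ≤ n → |F m n| ≤ (C : ℝ) * ((m : ℝ) + n + 1) :=
    fun m n hm hn => hC m n hm hn
  have hFd : ∀ m n, F m (n + 1) + F (m + 4) n + F (m + 2) (n + 2) + δ ≤ 3 * F (m + 2) (n + 1) := by
    intro m n
    have h1 : (P.H m (n + 1) : ℝ) + P.H (m + 4) n + P.H (m + 2) (n + 2) ≤ 3 * P.H (m + 2) (n + 1) := by
      exact_mod_cast ineq_two P hw m n
    simp only [hF, Q]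
    push_cast
    rw [hδ]
    linarith
  have key : ∀ R : ℕ, C + 1 ≤ R → δ / 20 * ((R : ℝ) - 1) ^ 2 ≤ C * (10 * R + 2) := by
    intro R hR
    have hR1 : (1 : ℝ) ≤ R := by exact_mod_cast (by omega : 1 ≤ R)
    set G : ℕ × ℕ → ℝ := fun z => F z.1 z.2 + δ / 20 * (((z.1 : ℝ) - 2 * R) ^ 2
      + ((z.2 : ℝ) - 2 * R) ^ 2) with hG
    obtain ⟨⟨m₀, n₀⟩, hz, hmin⟩ := Finset.exists_min_image
      (Finset.Icc R (3 * R) ×ˢ Finset.Icc R (3 * R)) G ⟨(2 * R, 2 * R), by simp; omega⟩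
    simp only [Finset.mem_product, Finset.mem_Icc] at hz hmin
    have hc : G (m₀, n₀) ≤ G (2 * R, 2 * R) := hmin (2 * R, 2 * R) (by constructor <;> constructor <;> simp <;> omega)
    have hc1 : G (2 * R, 2 * R) ≤ C * (4 * R + 1) := by
      have h1 := (abs_le.mp (hFb (2 * R) (2 * R) (by omega) (by omega))).2
      simp only [hG]
      push_cast at h1 ⊢
      nlinarith
    have hc2 : (((m₀ : ℝ) - 2 * R) ^ 2 + ((n₀ : ℝ) - 2 * R) ^ 2) ≥ ((R : ℝ) - 1) ^ 2 := by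
      by_cases hin : (R + 2 ≤ m₀ ∧ m₀ + 2 ≤ 3 * R) ∧ (R + 1 ≤ n₀ ∧ n₀ + 1 ≤ 3 * R)
      · exfalso
        obtain ⟨m, rfl⟩ : ∃ m, m₀ = m + 2 := ⟨m₀ - 2, by omega⟩
        obtain ⟨n, rfl⟩ : ∃ n, n₀ = n + 1 := ⟨n₀ - 1, by omega⟩
        have g1 := hmin (m, n + 1) (by constructor <;> constructor <;> simp <;> omega)
        have g2 := hmin (m + 4, n) (by constructor <;> constructor <;> simp <;> omega)
        have g3 := hmin (m + 2, n + 2) (by constructor <;> constructor <;> simp <;> omega)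
        have g4 := hFd m n
        simp only [hG] at g1 g2 g3
        push_cast at g1 g2 g3
        nlinarith
      · have hcases : m₀ ≤ R + 1 ∨ 3 * R ≤ m₀ + 1 ∨ n₀ ≤ R ∨ 3 * R ≤ n₀ := by omega
        rcases hcases with h | h | h | h
        · have h' : (m₀ : ℝ) ≤ R + 1 := by exact_mod_cast h
          nlinarith [sq_nonneg ((n₀ : ℝ) - 2 * R)]
        · have h' : 3 * (R : ℝ) ≤ m₀ + 1 := by exact_mod_cast h
          nlinarith [sq_nonneg ((n₀ : ℝ) - 2 * R)]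
        · have h' : (n₀ : ℝ) ≤ R := by exact_mod_cast h
          nlinarith [sq_nonneg ((m₀ : ℝ) - 2 * R)]
        · have h' : 3 * (R : ℝ) ≤ n₀ := by exact_mod_cast h
          nlinarith [sq_nonneg ((m₀ : ℝ) - 2 * R)]
    have hc3 : -((C : ℝ) * (6 * R + 1)) ≤ F m₀ n₀ := by
      have h1 := (abs_le.mp (hFb m₀ n₀ (by omega) (by omega))).1
      have h2 : (m₀ : ℝ) ≤ 3 * R := by exact_mod_cast hz.1.2
      have h3 : (n₀ : ℝ) ≤ 3 * R := by exact_mod_cast hz.2.2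
      have h4 : (0 : ℝ) ≤ C := Nat.cast_nonneg _
      nlinarith
    have hc4 : G (m₀, n₀) = F m₀ n₀ + δ / 20 * (((m₀ : ℝ) - 2 * R) ^ 2
      + ((n₀ : ℝ) - 2 * R) ^ 2) := rfl
    nlinarith
  have : δ / 20 ≤ 0 := by
    apply quad_lim _ (10 * C + δ / 10) (2 * C - δ / 20) (C + 1)
    intro t ht
    have := key t ht
    linarith
  linarith

lemma ineqs (P : Pt K) (v : ℝ × ℝ × ℝ) (hv : P.IsClass v) :
    0 ≤ v.1 ∧ 0 ≤ v.2.2 ∧ v.1 ≤ v.2.1 ∧ 2 * v.1 ≤ v.2.2 + v.2.1 := by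
  have h1 := r_nonneg P v hv
  have h2 := q_nonneg P v hv
  by_cases hw : P.w = 0
  · have h3 := case_two P v hv hw
    refine ⟨h1, h2, by linarith, by linarith⟩
  · have h3 := case_one P v hv hw
    refine ⟨h1, h2, h3.1, by linarith [h3.1, h3.2]⟩

end Pool.Agent.R21.PE
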