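import Mathlib

/-!
# The surfaces in `P(E)`, `E = O(1) ⊕ O³/O(-2)` on the projective plane, their classes
-/

set_option autoImplicit false

open Submodule Set

namespace Pool.Agent.R21.PE

/-- A `K`-point of `X ⊆ P² × P⁵`, for a field extension `K` of `ℂ`: homogeneous coordinates `x` and
`(y, w)` that satisfy the equations of `X`. -/
structure Pt (K : Type) [Field K] [Algebra ℂ K] where
  x : Fin 3 → K
  y : Fin 3 → K
  w : Fin 3 → K
  x_ne : x ≠ 0
  yw_ne : y ≠ 0 ∨ w ≠ 0
  eq₁ : ∀ i j, w i * x j = w j * x i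
  eq₂ : ∑ i, x i ^ 2 * y i = 0

variable {K : Type} [Field K] [Algebra ℂ K]

/-- The span of the values of the monomials of degree `m` in `x` and of degree `n` in `(y, w)`: the
homogeneous component of degree `(m, n)` of the coordinate ring of the Zariski closure of the point. -/
def Pt.L (P : Pt K) (m n : ℕ) : Submodule ℂ K :=
  span ℂ (range P.x) ^ m * span ℂ (range P.y ∪ range P.w) ^ n

/-- The bigraded Hilbert function. -/
noncomputable def Pt.H (P : Pt K) (m n : ℕ) : ℕ := Module.finrank ℂ (P.L m n)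

/-- The Zariski closure `S` of the point has dimension at most `2` and the intersection numbers
`(S · h², S · h η, S · η²) = (r, a, q)`: the leading form of the Hilbert polynomial is
`(r m² + 2 a m n + q n²) / 2`. -/
def Pt.IsClass (P : Pt K) (v : ℝ × ℝ × ℝ) : Prop :=
  ∃ C : ℕ, ∀ m n : ℕ, C ≤ m → C ≤ n →
    |2 * (P.H m n : ℝ) - (v.1 * m ^ 2 + 2 * v.2.1 * m * n + v.2.2 * n ^ 2)|
      ≤ (C : ℝ) * ((m : ℝ) + n + 1)

/-- The classes of the surfaces. -/
def classes : Set (ℝ × ℝ × ℝ) :=
  {v | ∃ (K : Type) (_ : Field K) (_ : Algebra ℂ K) (P : Pt K), P.IsClass v}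

/-- The pseudo-effective cone: the closure of the set of the nonnegative combinations of the classes
of the surfaces. -/
def Eff : Set (ℝ × ℝ × ℝ) := closure (span NNReal classes : Set (ℝ × ℝ × ℝ))

/-- The cone is simplicial: it is the set of the nonnegative combinations of a linearly independent
set of vectors. -/
def IsSimplicial (C : Set (ℝ × ℝ × ℝ)) : Prop :=
  ∃ S : Set (ℝ × ℝ × ℝ), LinearIndepOn ℝ id S ∧ C = (span NNReal S : Set (ℝ × ℝ × ℝ))

end Pool.Agent.R21.PE
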