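import Pool.Agent.R21.PE.Asy

/-!
# Four surfaces
-/

set_option autoImplicit false

open Submodule Set Module

namespace Pool.Agent.R21.PE

/-- the field of the rational functions in two variables -/
abbrev KK : Type := FractionRing (MvPolynomial (Fin 2) ℂ)

/-- variable -/
noncomputable def u : KK := algebraMap (MvPolynomial (Fin 2) ℂ) KK (MvPolynomial.X 0)
/-- variable -/
noncomputable def v : KK := algebraMap (MvPolynomial (Fin 2) ℂ) KK (MvPolynomial.X 1)

lemma mon_indep : LinearIndependent ℂ (fun p : (_ : ℕ) × ℕ => u ^ p.2 * v ^ p.1) := by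
  have h1 : LinearIndependent ℂ (fun p : (_ : ℕ) × ℕ =>
      MvPolynomial.basisMonomials (Fin 2) ℂ (Finsupp.single 0 p.2 + Finsupp.single 1 p.1)) := by
    apply (MvPolynomial.basisMonomials (Fin 2) ℂ).linearIndependent.comp
    rintro ⟨a, b⟩ ⟨c, d⟩ h
    have h0 := DFunLike.congr_fun h 0
    have h1 := DFunLike.congr_fun h 1
    simp at h0 h1
    subst h0; subst h1; rfl
  have h2 := h1.map' (IsScalarTower.toAlgHom ℂ (MvPolynomial (Fin 2) ℂ) KK).toLinearMap (by
    rw [LinearMap.ker_eq_bot]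
    exact IsFractionRing.injective (MvPolynomial (Fin 2) ℂ) KK)
  have e : (fun p : (_ : ℕ) × ℕ => u ^ p.2 * v ^ p.1) =
      (IsScalarTower.toAlgHom ℂ (MvPolynomial (Fin 2) ℂ) KK).toLinearMap ∘
        (fun p : (_ : ℕ) × ℕ => MvPolynomial.basisMonomials (Fin 2) ℂ
          (Finsupp.single 0 p.2 + Finsupp.single 1 p.1)) := by
    funext p
    have e2 : MvPolynomial.basisMonomials (Fin 2) ℂ
        (Finsupp.single 0 p.2 + Finsupp.single 1 p.1) =
          MvPolynomial.X 0 ^ p.2 * MvPolynomial.X 1 ^ p.1 := by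
      rw [MvPolynomial.coe_basisMonomials, MvPolynomial.X_pow_eq_monomial,
        MvPolynomial.X_pow_eq_monomial, MvPolynomial.monomial_mul, one_mul]
    rw [Function.comp_apply, e2]
    simp [u, v]
  rw [e]
  exact h2

/-- the span of the `u ^ k v ^ j` with `a ≤ j < p`, `k < c + j` -/
noncomputable def T (a p c : ℕ) : Submodule ℂ KK :=
  span ℂ ((fun z : (_ : ℕ) × ℕ => u ^ z.2 * v ^ z.1) ''
    ((Finset.Ico a p).sigma (fun j => Finset.range (c + j)) : Finset _))

lemma finrank_T (a p c : ℕ) : finrank ℂ (T a p c) = ∑ j ∈ Finset.Ico a p, (c + j) := by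
  unfold T
  rw [Set.image_eq_range]
  have h := mon_indep.comp (fun z : ((Finset.Ico a p).sigma (fun j => Finset.range (c + j)) :
    Finset _) => (z : (_ : ℕ) × ℕ)) Subtype.val_injective
  have h2 := finrank_span_eq_card h
  rw [Fintype.card_coe, Finset.card_sigma] at h2
  simp only [Finset.card_range] at h2
  exact h2

lemma mem_T {a p c k j : ℕ} (h1 : a ≤ j) (h2 : j < p) (h3 : k < c + j) :
    u ^ k * v ^ j ∈ T a p c := by
  apply Submodule.subset_span
  exact ⟨⟨j, k⟩, by simp [h1, h2, h3], rfl⟩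

lemma T_le {a p c : ℕ} {A : Submodule ℂ KK}
    (h : ∀ j k, a ≤ j → j < p → k < c + j → u ^ k * v ^ j ∈ A) : T a p c ≤ A := by
  unfold T
  rw [Submodule.span_le]
  rintro _ ⟨⟨j, k⟩, hz, rfl⟩
  simp only [Finset.coe_sigma, Set.mem_sigma_iff, Finset.coe_Ico, Set.mem_Ico, Finset.coe_range,
    Set.mem_Iio] at hz
  exact h j k hz.1.1 hz.1.2 hz.2

/-- the span of the `u ^ k v ^ j` with `j ≤ p`, `k ≤ c + j` -/
noncomputable def TT (p c : ℕ) : Submodule ℂ KK := T 0 (p + 1) (c + 1)

lemma TT_mul (p c p' c' : ℕ) : TT p c * TT p' c' ≤ TT (p + p') (c + c') := by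
  unfold TT T
  rw [Submodule.span_mul_span, Submodule.span_le]
  rintro _ ⟨_, ⟨⟨j, k⟩, hz, rfl⟩, _, ⟨⟨j', k'⟩, hz', rfl⟩, rfl⟩
  simp only [Finset.coe_sigma, Set.mem_sigma_iff, Finset.coe_Ico, Set.mem_Ico, Finset.coe_range,
    Set.mem_Iio] at hz hz'
  show u ^ k * v ^ j * (u ^ k' * v ^ j') ∈ T 0 (p + p' + 1) (c + c' + 1)
  rw [show u ^ k * v ^ j * (u ^ k' * v ^ j') = u ^ (k + k') * v ^ (j + j') by ring]
  exact mem_T (by omega) (by omega) (by omega)

lemma TT_pow {A : Submodule ℂ KK} {p c : ℕ} (hA : A ≤ TT p c) (n : ℕ) :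
    A ^ n ≤ TT (n * p) (n * c) := by
  induction n with
  | zero =>
    rw [pow_zero, Submodule.one_le]
    have := mem_T (a := 0) (p := 0 * p + 1) (c := 0 * c + 1) (k := 0) (j := 0) (by omega) (by omega)
      (by omega)
    simpa [TT] using this
  | succ n ih =>
    rw [pow_succ]
    refine (mul_le_mul' ih hA).trans ((TT_mul _ _ _ _).trans ?_)
    rw [show n * p + p = (n + 1) * p by ring, show n * c + c = (n + 1) * c by ring]

lemma finrank_TT (p c : ℕ) : 2 * finrank ℂ (TT p c) = 2 * (p + 1) * (c + 1) + p * (p + 1) := by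
  unfold TT
  rw [finrank_T, ← Finset.range_eq_Ico]
  induction p with
  | zero => simp
  | succ p ih =>
    rw [Finset.sum_range_succ, mul_add, ih]
    ring

lemma finrank_T1 (m c : ℕ) : 2 * finrank ℂ (T 1 (m + 1) c) = 2 * m * c + m * (m + 1) := by
  rw [finrank_T]
  induction m with
  | zero => simp
  | succ m ih =>
    rw [Finset.sum_Ico_succ_top (by omega), mul_add, ih]
    ring

lemma pow3 {A : Submodule ℂ KK} {a b c : KK} (ha : a ∈ A) (hb : b ∈ A) (hc : c ∈ A) (i j l n : ℕ)
    (h : i + j + l = n) : a ^ i * b ^ j * c ^ l ∈ A ^ n := by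
  subst h
  rw [pow_add, pow_add]
  exact Submodule.mul_mem_mul (Submodule.mul_mem_mul (Submodule.pow_mem_pow _ ha _)
    (Submodule.pow_mem_pow _ hb _)) (Submodule.pow_mem_pow _ hc _)

/-- the surface `A` -/
noncomputable def PA : Pt KK where
  x := ![1, 0, 0]
  y := ![0, v, u * v]
  w := ![1, 0, 0]
  x_ne := by intro h; simpa using congrFun h 0
  yw_ne := by right; intro h; simpa using congrFun h 0
  eq₁ i j := by fin_cases i <;> fin_cases j <;> simp
  eq₂ := by simp [Fin.sum_univ_three]

/-- the surface `B` -/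
noncomputable def PB : Pt KK where
  x := ![1, u, 0]
  y := ![0, 0, 1]
  w := ![v, u * v, 0]
  x_ne := by intro h; simpa using congrFun h 0
  yw_ne := by left; intro h; simpa using congrFun h 2
  eq₁ i j := by fin_cases i <;> fin_cases j <;> simp <;> ring
  eq₂ := by simp [Fin.sum_univ_three]

/-- the surface `C` -/
noncomputable def PC : Pt KK where
  x := ![v, u * v, 1]
  y := 0
  w := ![v, u * v, 1]
  x_ne := by intro h; simpa using congrFun h 2
  yw_ne := by right; intro h; simpa using congrFun h 2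
  eq₁ i j := by ring
  eq₂ := by simp

/-- the surface `D` -/
noncomputable def PD : Pt KK where
  x := ![v, u * v, 1]
  y := ![-u ^ 2, 1, 0]
  w := 0
  x_ne := by intro h; simpa using congrFun h 2
  yw_ne := by left; intro h; simpa using congrFun h 1
  eq₁ i j := by simp
  eq₂ := by simp [Fin.sum_univ_three]; ring

/-- class from the two bounds -/
lemma isClass_of (P : Pt KK) (r a q : ℝ) (C : ℕ) (f g : ℕ → ℕ → ℕ)
    (hf : ∀ m n, 1 ≤ m → f m n ≤ 2 * P.H m n) (hg : ∀ m n, 2 * P.H m n ≤ g m n)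
    (hf' : ∀ m n : ℕ, r * m ^ 2 + 2 * a * m * n + q * n ^ 2 - (C : ℝ) * ((m : ℝ) + n + 1) ≤ f m n)
    (hg' : ∀ m n : ℕ, (g m n : ℝ) ≤ r * m ^ 2 + 2 * a * m * n + q * n ^ 2
      + (C : ℝ) * ((m : ℝ) + n + 1)) :
    P.IsClass (r, a, q) := by
  refine ⟨C + 1, fun m n hm hn => ?_⟩
  have h1 : (f m n : ℝ) ≤ 2 * P.H m n := by exact_mod_cast hf m n (by omega)
  have h2 : 2 * (P.H m n : ℝ) ≤ g m n := by exact_mod_cast hg m n
  have h3 := hf' m n
  have h4 := hg' m n
  have h5 : (0 : ℝ) ≤ (m : ℝ) + n + 1 := by positivity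
  rw [abs_le]
  push_cast
  constructor
  · linarith
  · linarith

lemma H_le (P : Pt KK) (p c p' c' : ℕ) (hU : span ℂ (range P.x) ≤ TT p c)
    (hV : span ℂ (range P.y ∪ range P.w) ≤ TT p' c') (m n : ℕ) :
    2 * P.H m n ≤ 2 * (m * p + n * p' + 1) * (m * c + n * c' + 1)
      + (m * p + n * p') * (m * p + n * p' + 1) := by
  have h1 : P.L m n ≤ TT (m * p + n * p') (m * c + n * c') :=
    (mul_le_mul' (TT_pow hU m) (TT_pow hV n)).trans (TT_mul _ _ _ _)
  have : FiniteDimensional ℂ (TT (m * p + n * p') (m * c + n * c')) := by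
    unfold TT T
    exact FiniteDimensional.span_of_finite ℂ ((Finset.finite_toSet _).image _)
  have h2 := Submodule.finrank_mono h1
  have h3 := finrank_TT (m * p + n * p') (m * c + n * c')
  unfold Pt.H
  omega

lemma mem_TT {p c k j : ℕ} (h1 : j ≤ p) (h2 : k ≤ c + j) : u ^ k * v ^ j ∈ TT p c :=
  mem_T (by omega) (by omega) (by omega)

lemma one_mem_TT (p c : ℕ) : (1 : KK) ∈ TT p c := by
  have := mem_TT (p := p) (c := c) (k := 0) (j := 0) (by omega) (by omega)
  simpa using this

lemma span_range_le {x : Fin 3 → KK} {A : Submodule ℂ KK} (h : ∀ i, x i ∈ A) :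
    span ℂ (range x) ≤ A := by
  rw [Submodule.span_le]
  rintro _ ⟨i, rfl⟩
  exact h i

lemma span_union_le {y w : Fin 3 → KK} {A : Submodule ℂ KK} (h : ∀ i, y i ∈ A)
    (h' : ∀ i, w i ∈ A) : span ℂ (range y ∪ range w) ≤ A := by
  rw [Submodule.span_le]
  rintro _ (⟨i, rfl⟩ | ⟨i, rfl⟩)
  · exact h i
  · exact h' i

lemma le_H (P : Pt KK) {a p c m n : ℕ} (h : T a p c ≤ P.L m n) : finrank ℂ (T a p c) ≤ P.H m n :=
  Submodule.finrank_mono h

lemma v_mem {p c : ℕ} (hp : 1 ≤ p) : v ∈ TT p c := by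
  have := mem_TT (p := p) (c := c) (k := 0) (j := 1) (by omega) (by omega)
  simpa using this

lemma uv_mem {p c : ℕ} (hp : 1 ≤ p) : u * v ∈ TT p c := by
  have := mem_TT (p := p) (c := c) (k := 1) (j := 1) (by omega) (by omega)
  simpa using this

lemma class_A : PA.IsClass (0, 0, 1) := by
  apply isClass_of PA 0 0 1 3 (fun m n => 2 * (n + 1) * (0 + 1) + n * (n + 1))
    (fun m n => 2 * (m * 0 + n * 1 + 1) * (m * 0 + n * 0 + 1)
      + (m * 0 + n * 1) * (m * 0 + n * 1 + 1))
  · intro m n _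
    rw [← finrank_TT]
    apply Nat.mul_le_mul_left
    apply le_H
    apply T_le
    intro j k _ hj hk
    have h1 : (1 : KK) ∈ span ℂ (range PA.x) := Submodule.subset_span ⟨0, rfl⟩
    have h2 : (1 : KK) ∈ span ℂ (range PA.y ∪ range PA.w) := Submodule.subset_span (Or.inr ⟨0, rfl⟩)
    have h3 : v ∈ span ℂ (range PA.y ∪ range PA.w) := Submodule.subset_span (Or.inl ⟨1, rfl⟩)
    have h4 : u * v ∈ span ℂ (range PA.y ∪ range PA.w) := Submodule.subset_span (Or.inl ⟨2, rfl⟩)
    have h5 := Submodule.mul_mem_mul (Submodule.pow_mem_pow _ h1 m)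
      (pow3 h4 h3 h2 k (j - k) (n - j) n (by omega))
    have h6 : u ^ k * v ^ j = 1 ^ m * ((u * v) ^ k * v ^ (j - k) * 1 ^ (n - j)) := by
      obtain ⟨d, rfl⟩ := Nat.exists_eq_add_of_le (show k ≤ j by omega)
      rw [Nat.add_sub_cancel_left]
      ring
    rw [h6]
    exact h5
  · intro m n
    apply H_le PA 0 0 1 0
    · apply span_range_le
      intro i
      fin_cases i
      · exact one_mem_TT 0 0
      · exact Submodule.zero_mem _
      · exact Submodule.zero_mem _
    · apply span_union_le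
      · intro i
        fin_cases i
        · exact Submodule.zero_mem _
        · exact v_mem le_rfl
        · exact uv_mem le_rfl
      · intro i
        fin_cases i
        · exact one_mem_TT 1 0
        · exact Submodule.zero_mem _
        · exact Submodule.zero_mem _
  · intro m n
    push_cast
    nlinarith
  · intro m n
    push_cast
    nlinarith

lemma class_B : PB.IsClass (0, 1, 1) := by
  apply isClass_of PB 0 1 1 3 (fun m n => 2 * (n + 1) * (m + 1) + n * (n + 1))
    (fun m n => 2 * (m * 0 + n * 1 + 1) * (m * 1 + n * 0 + 1)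
      + (m * 0 + n * 1) * (m * 0 + n * 1 + 1))
  · intro m n _
    rw [← finrank_TT]
    apply Nat.mul_le_mul_left
    apply le_H
    apply T_le
    intro j k _ hj hk
    have h0 : (1 : KK) ∈ span ℂ (range PB.x) := Submodule.subset_span ⟨0, rfl⟩
    have h1 : u ∈ span ℂ (range PB.x) := Submodule.subset_span ⟨1, rfl⟩
    have h2 : (1 : KK) ∈ span ℂ (range PB.y ∪ range PB.w) := Submodule.subset_span (Or.inl ⟨2, rfl⟩)
    have h3 : v ∈ span ℂ (range PB.y ∪ range PB.w) := Submodule.subset_span (Or.inr ⟨0, rfl⟩)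
    have h4 : u * v ∈ span ℂ (range PB.y ∪ range PB.w) := Submodule.subset_span (Or.inr ⟨1, rfl⟩)
    obtain ⟨i, l, hil, hi, hl⟩ : ∃ i l, k = i + l ∧ i ≤ m ∧ l ≤ j := by
      by_cases hkj : k ≤ j
      · exact ⟨0, k, by omega, by omega, hkj⟩
      · exact ⟨k - j, j, by omega, by omega, le_rfl⟩
    have h5 := Submodule.mul_mem_mul (pow3 h1 h0 h0 i (m - i) 0 m (by omega))
      (pow3 h4 h3 h2 l (j - l) (n - j) n (by omega))
    have h6 : u ^ k * v ^ j = u ^ i * 1 ^ (m - i) * 1 ^ 0 *
        ((u * v) ^ l * v ^ (j - l) * 1 ^ (n - j)) := by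
      obtain ⟨d, rfl⟩ := Nat.exists_eq_add_of_le hl
      rw [Nat.add_sub_cancel_left, hil]
      ring
    rw [h6]
    exact h5
  · intro m n
    apply H_le PB 0 1 1 0
    · apply span_range_le
      intro i
      fin_cases i
      · exact one_mem_TT 0 1
      · have := mem_TT (p := 0) (c := 1) (k := 1) (j := 0) (by omega) (by omega)
        rw [pow_one, pow_zero, mul_one] at this
        exact this
      · exact Submodule.zero_mem _
    · apply span_union_le
      · intro i
        fin_cases i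
        · exact Submodule.zero_mem _
        · exact Submodule.zero_mem _
        · exact one_mem_TT 1 0
      · intro i
        fin_cases i
        · exact v_mem le_rfl
        · exact uv_mem le_rfl
        · exact Submodule.zero_mem _
  · intro m n
    push_cast
    nlinarith
  · intro m n
    push_cast
    nlinarith

lemma class_C : PC.IsClass (1, 1, 1) := by
  apply isClass_of PC 1 1 1 3 (fun m n => 2 * ((m + n) + 1) * (0 + 1) + (m + n) * ((m + n) + 1))
    (fun m n => 2 * (m * 1 + n * 1 + 1) * (m * 0 + n * 0 + 1)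
      + (m * 1 + n * 1) * (m * 1 + n * 1 + 1))
  · intro m n _
    rw [← finrank_TT]
    apply Nat.mul_le_mul_left
    apply le_H
    apply T_le
    intro j k _ hj hk
    have h0 : (1 : KK) ∈ span ℂ (range PC.x) := Submodule.subset_span ⟨2, rfl⟩
    have h1 : v ∈ span ℂ (range PC.x) := Submodule.subset_span ⟨0, rfl⟩
    have h1' : u * v ∈ span ℂ (range PC.x) := Submodule.subset_span ⟨1, rfl⟩
    have hle : span ℂ (range PC.x) ≤ span ℂ (range PC.y ∪ range PC.w) :=
      Submodule.span_mono subset_union_right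
    have h5 := pow3 h1' h1 h0 k (j - k) (m + n - j) (m + n) (by omega)
    have h6 : u ^ k * v ^ j = (u * v) ^ k * v ^ (j - k) * 1 ^ (m + n - j) := by
      obtain ⟨d, rfl⟩ := Nat.exists_eq_add_of_le (show k ≤ j by omega)
      rw [Nat.add_sub_cancel_left]
      ring
    rw [h6]
    have h7 : span ℂ (range PC.x) ^ (m + n) ≤ PC.L m n := by
      rw [pow_add]
      exact mul_le_mul' le_rfl (pow_le_pow_left' hle n)
    exact h7 h5
  · intro m n
    apply H_le PC 1 0 1 0
    · apply span_range_le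
      intro i
      fin_cases i
      · exact v_mem le_rfl
      · exact uv_mem le_rfl
      · exact one_mem_TT 1 0
    · apply span_union_le
      · intro i
        exact Submodule.zero_mem _
      · intro i
        fin_cases i
        · exact v_mem le_rfl
        · exact uv_mem le_rfl
        · exact one_mem_TT 1 0
  · intro m n
    push_cast
    nlinarith
  · intro m n
    push_cast
    nlinarith

lemma class_D : PD.IsClass (1, 2, 0) := by
  apply isClass_of PD 1 2 0 4 (fun m n => 2 * m * (2 * n + 1) + m * (m + 1))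
    (fun m n => 2 * (m * 1 + n * 0 + 1) * (m * 0 + n * 2 + 1)
      + (m * 1 + n * 0) * (m * 1 + n * 0 + 1))
  · intro m n _
    rw [← finrank_T1]
    apply Nat.mul_le_mul_left
    apply le_H
    apply T_le
    intro j k hj0 hj hk
    have h0 : (1 : KK) ∈ span ℂ (range PD.x) := Submodule.subset_span ⟨2, rfl⟩
    have h1 : v ∈ span ℂ (range PD.x) := Submodule.subset_span ⟨0, rfl⟩
    have h1' : u * v ∈ span ℂ (range PD.x) := Submodule.subset_span ⟨1, rfl⟩
    have h2 : (1 : KK) ∈ span ℂ (range PD.y ∪ range PD.w) := Submodule.subset_span (Or.inl ⟨1, rfl⟩)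
    have h3 : u ^ 2 ∈ span ℂ (range PD.y ∪ range PD.w) := by
      have h4 : -u ^ 2 ∈ span ℂ (range PD.y ∪ range PD.w) := Submodule.subset_span (Or.inl ⟨0, rfl⟩)
      simpa using Submodule.neg_mem _ h4
    obtain ⟨i, l, hil, hi, hl⟩ : ∃ i l, k = i + 2 * l ∧ i ≤ j ∧ l ≤ n := by
      by_cases hkj : k / 2 ≤ n
      · exact ⟨k % 2, k / 2, by omega, by omega, hkj⟩
      · exact ⟨k - 2 * n, n, by omega, by omega, le_rfl⟩
    have h5 := Submodule.mul_mem_mul (pow3 h1' h1 h0 i (j - i) (m - j) m (by omega))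
      (pow3 h3 h2 h2 l (n - l) 0 n (by omega))
    have h6 : u ^ k * v ^ j = (u * v) ^ i * v ^ (j - i) * 1 ^ (m - j) *
        ((u ^ 2) ^ l * 1 ^ (n - l) * 1 ^ 0) := by
      obtain ⟨d, rfl⟩ := Nat.exists_eq_add_of_le hi
      rw [Nat.add_sub_cancel_left, hil]
      ring
    rw [h6]
    exact h5
  · intro m n
    apply H_le PD 1 0 0 2
    · apply span_range_le
      intro i
      fin_cases i
      · exact v_mem le_rfl
      · exact uv_mem le_rfl
      · exact one_mem_TT 1 0
    · apply span_union_le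
      · intro i
        fin_cases i
        · have := mem_TT (p := 0) (c := 2) (k := 2) (j := 0) (by omega) (by omega)
          rw [pow_zero, mul_one] at this
          exact Submodule.neg_mem _ this
        · exact one_mem_TT 0 2
        · exact Submodule.zero_mem _
      · intro i
        exact Submodule.zero_mem _
  · intro m n
    push_cast
    nlinarith
  · intro m n
    push_cast
    nlinarith

end Pool.Agent.R21.PE
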