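import Pool.Agent.R21.PE.Defs

/-!
# Inequalities of the Hilbert functions
-/

set_option autoImplicit false

open Submodule Set Module

namespace Pool.Agent.R21.PE

variable {K : Type} [Field K] [Algebra ℂ K]

lemma fg_U (P : Pt K) : (span ℂ (range P.x)).FG := fg_span (finite_range _)
lemma fg_V (P : Pt K) : (span ℂ (range P.y ∪ range P.w)).FG :=
  fg_span ((finite_range _).union (finite_range _))

instance finL (P : Pt K) (m n : ℕ) : FiniteDimensional ℂ (P.L m n) := by
  rw [← Submodule.fg_iff_finiteDimensional]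
  exact ((fg_U P).pow m).mul ((fg_V P).pow n)

/-- multiplication by a nonzero element -/
lemma finrank_mul_le {A B : Submodule ℂ K} [FiniteDimensional ℂ B] (z : K) (hz : z ≠ 0)
    (h : span ℂ {z} * A ≤ B) : finrank ℂ A ≤ finrank ℂ B := by
  have hinj : Function.Injective (LinearMap.mulLeft ℂ z) := fun a b hab => mul_left_cancel₀ hz hab
  rw [(Submodule.equivMapOfInjective _ hinj A).finrank_eq]
  apply Submodule.finrank_mono
  rintro _ ⟨a, ha, rfl⟩
  exact h (Submodule.mul_mem_mul (Submodule.mem_span_singleton_self z) ha)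

lemma dim_split {E F : Type} [AddCommGroup E] [Module ℂ E] [AddCommGroup F] [Module ℂ F]
    (φ : E →ₗ[ℂ] F) (N : Submodule ℂ E) [FiniteDimensional ℂ N] (B : Submodule ℂ F)
    (hB : B ≤ N.map φ) : finrank ℂ (N ⊓ LinearMap.ker φ : Submodule ℂ E) + finrank ℂ B
      ≤ finrank ℂ N := by
  have h1 := LinearMap.finrank_range_add_finrank_ker (φ.domRestrict N)
  rw [LinearMap.range_domRestrict] at h1
  have h2 : finrank ℂ B ≤ finrank ℂ (N.map φ) := Submodule.finrank_mono hB
  have h3 : finrank ℂ (N ⊓ LinearMap.ker φ : Submodule ℂ E)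
      ≤ finrank ℂ (LinearMap.ker (φ.domRestrict N)) := by
    let f : (N ⊓ LinearMap.ker φ : Submodule ℂ E) →ₗ[ℂ] LinearMap.ker (φ.domRestrict N) :=
      LinearMap.codRestrict _ (Submodule.inclusion inf_le_left) (by
        rintro ⟨e, he⟩
        rw [LinearMap.mem_ker]
        exact he.2)
    apply LinearMap.finrank_le_finrank_of_injective (f := f)
    intro a b hab
    have h4 : (((f a : LinearMap.ker (φ.domRestrict N)) : N) : E)
        = (((f b : LinearMap.ker (φ.domRestrict N)) : N) : E) := by rw [hab]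
    exact Subtype.ext h4
  omega

/-- vectors with components in `M` -/
def N3 (M : Submodule ℂ K) : Submodule ℂ (Fin 3 → K) := Submodule.pi univ (fun _ => M)

lemma mem_N3 {M : Submodule ℂ K} {g : Fin 3 → K} : g ∈ N3 M ↔ ∀ i, g i ∈ M := by
  simp [N3, Submodule.mem_pi]

lemma N3_le (M : Submodule ℂ K) : N3 M ≤ LinearMap.range
    (LinearMap.compLeft M.subtype (Fin 3)) := by
  intro g hg
  rw [mem_N3] at hg
  exact ⟨fun i => ⟨g i, hg i⟩, rfl⟩

instance finN3 (M : Submodule ℂ K) [FiniteDimensional ℂ M] : FiniteDimensional ℂ (N3 M) :=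
  Submodule.finiteDimensional_of_le (N3_le M)

lemma finrank_N3 (M : Submodule ℂ K) [FiniteDimensional ℂ M] :
    finrank ℂ (N3 M) ≤ 3 * finrank ℂ M := by
  refine (Submodule.finrank_mono (N3_le M)).trans ?_
  refine (LinearMap.finrank_range_le _).trans ?_
  rw [Module.finrank_pi_fintype]
  simp

/-- Case 1 -/
lemma H_le_of_w (P : Pt K) (hw : P.w ≠ 0) (m n k : ℕ) : P.H (m + k) n ≤ P.H m (n + k) := by
  obtain ⟨i, hi⟩ : ∃ i, P.w i ≠ 0 := by
    by_contra h
    push Not at h
    exact hw (funext h)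
  obtain ⟨j, hj⟩ : ∃ j, P.x j ≠ 0 := by
    by_contra h
    push Not at h
    exact P.x_ne (funext h)
  have hxi : P.x i ≠ 0 := by
    intro h
    have := P.eq₁ i j
    rw [h, mul_zero] at this
    exact (mul_ne_zero hi hj) this
  set z : K := P.w i / P.x i with hz
  have hz0 : z ≠ 0 := div_ne_zero hi hxi
  have hzx : ∀ j, z * P.x j = P.w j := by
    intro j
    rw [hz, div_mul_eq_mul_div, div_eq_iff hxi]
    exact P.eq₁ i j
  induction k generalizing n with
  | zero => exact le_refl _
  | succ k ih =>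
    refine le_trans ?_ ((ih (n + 1)).trans (by rw [show n + 1 + k = n + (k + 1) by ring]))
    apply finrank_mul_le z hz0
    unfold Pt.L
    have h1 : span ℂ {z} * span ℂ (range P.x) ≤ span ℂ (range P.y ∪ range P.w) := by
      rw [Submodule.span_mul_span]
      apply Submodule.span_mono
      rintro _ ⟨a, ha, b, hb, rfl⟩
      rw [mem_singleton_iff] at ha
      obtain ⟨j, rfl⟩ := hb
      subst ha
      right
      exact ⟨j, (hzx j).symm⟩
    calc span ℂ {z} * (span ℂ (range P.x) ^ (m + (k + 1)) * span ℂ (range P.y ∪ range P.w) ^ n)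
        = (span ℂ {z} * span ℂ (range P.x)) * (span ℂ (range P.x) ^ (m + k) *
            span ℂ (range P.y ∪ range P.w) ^ n) := by
          rw [show m + (k + 1) = (m + k) + 1 by ring, pow_succ']
          simp only [mul_assoc]
      _ ≤ span ℂ (range P.y ∪ range P.w) * (span ℂ (range P.x) ^ (m + k) *
            span ℂ (range P.y ∪ range P.w) ^ n) := mul_le_mul' h1 le_rfl
      _ = span ℂ (range P.x) ^ (m + k) * span ℂ (range P.y ∪ range P.w) ^ (n + 1) := by
          rw [pow_succ]
          simp only [mul_comm, mul_left_comm]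

/-! ### Case 2: the points of `P(O³/O(-2))` -/

/-- squares -/
def sq3 (P : Pt K) : Fin 3 → K := fun i => P.x i ^ 2

lemma U_four (P : Pt K) : span ℂ (range P.x) ^ 4 ≤ span ℂ (range (sq3 P)) * span ℂ (range P.x) ^ 2 := by
  have h0 : span ℂ (range P.x) ^ 4 = span ℂ (range P.x) * span ℂ (range P.x) *
      (span ℂ (range P.x) * span ℂ (range P.x)) := by ring
  rw [h0, Submodule.span_mul_span, Submodule.span_mul_span, Submodule.span_le]
  rintro _ ⟨_, ⟨_, ⟨a, rfl⟩, _, ⟨b, rfl⟩, rfl⟩, _, ⟨_, ⟨c, rfl⟩, _, ⟨d, rfl⟩, rfl⟩, rfl⟩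
  have key : ∀ e f g : Fin 3, P.x e ^ 2 * (P.x f * P.x g)
      ∈ span ℂ (range (sq3 P)) * span ℂ (range P.x) ^ 2 := by
    intro e f g
    apply Submodule.mul_mem_mul (Submodule.subset_span (mem_range_self e))
    rw [pow_two (span ℂ (range P.x))]
    exact Submodule.mul_mem_mul (Submodule.subset_span (mem_range_self f)) (Submodule.subset_span (mem_range_self g))
  have pig : ∀ a b c d : Fin 3, a = b ∨ a = c ∨ a = d ∨ b = c ∨ b = d ∨ c = d := by decide
  show P.x a * P.x b * (P.x c * P.x d) ∈ span ℂ (range (sq3 P)) * span ℂ (range P.x) ^ 2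
  rcases pig a b c d with rfl | rfl | rfl | rfl | rfl | rfl
  · rw [show P.x a * P.x a * (P.x c * P.x d) = P.x a ^ 2 * (P.x c * P.x d) by ring]; exact key _ _ _
  · rw [show P.x a * P.x b * (P.x a * P.x d) = P.x a ^ 2 * (P.x b * P.x d) by ring]; exact key _ _ _
  · rw [show P.x a * P.x b * (P.x c * P.x a) = P.x a ^ 2 * (P.x b * P.x c) by ring]; exact key _ _ _
  · rw [show P.x a * P.x b * (P.x b * P.x d) = P.x b ^ 2 * (P.x a * P.x d) by ring]; exact key _ _ _
  · rw [show P.x a * P.x b * (P.x c * P.x b) = P.x b ^ 2 * (P.x a * P.x c) by ring]; exact key _ _ _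
  · rw [show P.x a * P.x b * (P.x c * P.x c) = P.x c ^ 2 * (P.x a * P.x b) by ring]; exact key _ _ _

lemma mul_span_le {A T : Submodule ℂ K} {s : Set K} (h : ∀ a ∈ A, ∀ b ∈ s, a * b ∈ T) :
    A * span ℂ s ≤ T := by
  rw [Submodule.mul_le]
  intro a ha b hb
  have : span ℂ s ≤ T.comap (LinearMap.mulLeft ℂ a) :=
    Submodule.span_le.mpr (fun b hb => h a ha b hb)
  exact this hb

/-- the vectors orthogonal to `y` -/
def crs (y : Fin 3 → K) (i : Fin 3) : Fin 3 → K :=
  match i with
  | 0 => ![0, -y 2, y 1]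
  | 1 => ![y 2, 0, -y 0]
  | 2 => ![-y 1, y 0, 0]

/-- a component of the cross product with the vector of the squares -/
def psi (P : Pt K) (j : Fin 3) : (Fin 3 → K) →ₗ[ℂ] K where
  toFun g := g (j + 1) * P.x (j + 2) ^ 2 - g (j + 2) * P.x (j + 1) ^ 2
  map_add' g h := by simp only [Pi.add_apply]; ring
  map_smul' c g := by
    simp only [Pi.smul_apply, RingHom.id_apply, smul_sub, smul_mul_assoc]

/-- the scalar product with `y` -/
def phi (P : Pt K) : (Fin 3 → K) →ₗ[ℂ] K where
  toFun g := ∑ i, P.y i * g i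
  map_add' g h := by simp only [Pi.add_apply, mul_add, Finset.sum_add_distrib]
  map_smul' c g := by
    simp only [Pi.smul_apply, RingHom.id_apply, Finset.smul_sum, mul_smul_comm]

lemma V_eq (P : Pt K) (hw : P.w = 0) :
    span ℂ (range P.y ∪ range P.w) = span ℂ (range P.y) := by
  rw [Submodule.span_union, hw]
  apply sup_eq_left.mpr
  rw [Submodule.span_le]
  rintro _ ⟨i, rfl⟩
  exact Submodule.zero_mem _

lemma crs_mem (P : Pt K) (i k : Fin 3) : crs P.y i k ∈ span ℂ (range P.y) := by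
  have h : ∀ l, P.y l ∈ span ℂ (range P.y) := fun l => Submodule.subset_span ⟨l, rfl⟩
  fin_cases i <;> fin_cases k <;> simp [crs, h]

lemma crs_orth (y : Fin 3 → K) (i : Fin 3) : ∑ k, y k * crs y i k = 0 := by
  fin_cases i <;> simp [crs, Fin.sum_univ_three] <;> ring

lemma crs_psi (P : Pt K) (i j : Fin 3) : psi P j (crs P.y i) = P.y j * P.x i ^ 2 := by
  have h := P.eq₂
  rw [Fin.sum_univ_three] at h
  fin_cases i <;> fin_cases j <;> simp [crs, psi] <;> first | ring1 | linear_combination -h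

lemma ineq_two (P : Pt K) (hw : P.w = 0) (m n : ℕ) :
    P.H m (n + 1) + P.H (m + 4) n + P.H (m + 2) (n + 2) ≤ 3 * P.H (m + 2) (n + 1) := by
  have hV := V_eq P hw
  obtain ⟨j, hj⟩ : ∃ j, P.y j ≠ 0 := by
    by_contra h
    push Not at h
    rcases P.yw_ne with h1 | h1
    · exact h1 (funext h)
    · exact h1 hw
  obtain ⟨l, hl⟩ : ∃ l, P.x l ≠ 0 := by
    by_contra h
    push Not at h
    exact P.x_ne (funext h)
  have e1 : P.L (m + 2) (n + 2) ≤ (N3 (P.L (m + 2) (n + 1))).map (phi P) := by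
    have : P.L (m + 2) (n + 2) = P.L (m + 2) (n + 1) * span ℂ (range P.y) := by
      unfold Pt.L
      rw [hV]
      ring
    rw [this]
    apply mul_span_le
    rintro a ha _ ⟨i, rfl⟩
    refine ⟨Pi.single i a, ?_, ?_⟩
    · rw [SetLike.mem_coe, mem_N3]
      intro k
      by_cases hk : k = i
      · subst hk; simpa using ha
      · simp [hk]
    · show ∑ k, P.y k * (Pi.single i a : Fin 3 → K) k = a * P.y i
      rw [Finset.sum_eq_single i]
      · simp [mul_comm]
      · intro k _ hk; simp [hk]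
      · simp
  have e2 : (P.L (m + 4) n).map (LinearMap.mulLeft ℂ (P.y j)) ≤
      (N3 (P.L (m + 2) (n + 1)) ⊓ LinearMap.ker (phi P)).map (psi P j) := by
    have h1 : P.L (m + 4) n ≤ P.L (m + 2) n * span ℂ (range (sq3 P)) := by
      have h2 : P.L (m + 4) n = span ℂ (range P.x) ^ 4 *
          (span ℂ (range P.x) ^ m * span ℂ (range P.y ∪ range P.w) ^ n) := by
        unfold Pt.L; ring
      have h3 : P.L (m + 2) n * span ℂ (range (sq3 P)) =
          span ℂ (range (sq3 P)) * span ℂ (range P.x) ^ 2 *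
          (span ℂ (range P.x) ^ m * span ℂ (range P.y ∪ range P.w) ^ n) := by
        unfold Pt.L; ring
      rw [h2, h3]
      exact mul_le_mul' (U_four P) le_rfl
    rw [Submodule.map_le_iff_le_comap]
    refine h1.trans ?_
    apply mul_span_le
    rintro c hc _ ⟨i, rfl⟩
    refine ⟨c • crs P.y i, ⟨?_, ?_⟩, ?_⟩
    · rw [SetLike.mem_coe, mem_N3]
      intro k
      have h4 : P.L (m + 2) (n + 1) = P.L (m + 2) n * span ℂ (range P.y) := by
        unfold Pt.L
        rw [hV]
        ring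
      rw [h4]
      exact Submodule.mul_mem_mul hc (crs_mem P i k)
    · rw [SetLike.mem_coe, LinearMap.mem_ker]
      show ∑ k, P.y k * (c * crs P.y i k) = 0
      have := crs_orth P.y i
      calc ∑ k, P.y k * (c * crs P.y i k) = c * ∑ k, P.y k * crs P.y i k := by
            rw [Finset.mul_sum]; apply Finset.sum_congr rfl; intro k _; ring
        _ = 0 := by rw [this, mul_zero]
    · show (c * crs P.y i (j + 1)) * P.x (j + 2) ^ 2 - (c * crs P.y i (j + 2)) * P.x (j + 1) ^ 2
        = P.y j * (c * P.x i ^ 2)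
      have h5 : crs P.y i (j + 1) * P.x (j + 2) ^ 2 - crs P.y i (j + 2) * P.x (j + 1) ^ 2
        = P.y j * P.x i ^ 2 := crs_psi P i j
      linear_combination c * h5
  have e3 : finrank ℂ (P.L m (n + 1)) ≤ finrank ℂ (((N3 (P.L (m + 2) (n + 1)) ⊓
      LinearMap.ker (phi P)) ⊓ LinearMap.ker (psi P j) : Submodule ℂ (Fin 3 → K))) := by
    let f : K →ₗ[ℂ] (Fin 3 → K) := LinearMap.pi (fun i => LinearMap.mulRight ℂ (P.x i ^ 2))
    have hf : ∀ a i, f a i = a * P.x i ^ 2 := fun a i => rfl
    have hinj : Function.Injective f := by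
      intro a b hab
      have := congrFun hab l
      rw [hf, hf] at this
      exact mul_right_cancel₀ (pow_ne_zero 2 hl) this
    rw [(Submodule.equivMapOfInjective _ hinj (P.L m (n + 1))).finrank_eq]
    apply Submodule.finrank_mono
    rintro _ ⟨a, ha, rfl⟩
    refine ⟨⟨?_, ?_⟩, ?_⟩
    · rw [SetLike.mem_coe, mem_N3]
      intro k
      rw [hf]
      have h4 : P.L (m + 2) (n + 1) = P.L m (n + 1) * span ℂ (range P.x) ^ 2 := by
        unfold Pt.L
        ring
      rw [h4]
      apply Submodule.mul_mem_mul ha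
      exact Submodule.pow_mem_pow _ (Submodule.subset_span (mem_range_self k)) 2
    · rw [SetLike.mem_coe, LinearMap.mem_ker]
      show ∑ k, P.y k * (a * P.x k ^ 2) = 0
      calc ∑ k, P.y k * (a * P.x k ^ 2) = a * ∑ k, P.x k ^ 2 * P.y k := by
            rw [Finset.mul_sum]; apply Finset.sum_congr rfl; intro k _; ring
        _ = 0 := by rw [P.eq₂, mul_zero]
    · rw [SetLike.mem_coe, LinearMap.mem_ker]
      show (a * P.x (j + 1) ^ 2) * P.x (j + 2) ^ 2 - (a * P.x (j + 2) ^ 2) * P.x (j + 1) ^ 2 = 0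
      ring
  have f1 := dim_split (phi P) (N3 (P.L (m + 2) (n + 1))) _ e1
  have : FiniteDimensional ℂ (N3 (P.L (m + 2) (n + 1)) ⊓ LinearMap.ker (phi P) :
    Submodule ℂ (Fin 3 → K)) := Submodule.finiteDimensional_of_le inf_le_left
  have f2 := dim_split (psi P j) (N3 (P.L (m + 2) (n + 1)) ⊓ LinearMap.ker (phi P)) _ e2
  have hinj2 : Function.Injective (LinearMap.mulLeft ℂ (P.y j)) :=
    fun a b hab => mul_left_cancel₀ hj hab
  rw [← (Submodule.equivMapOfInjective _ hinj2 (P.L (m + 4) n)).finrank_eq] at f2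
  have f3 := finrank_N3 (P.L (m + 2) (n + 1))
  unfold Pt.H
  omega

end Pool.Agent.R21.PE
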